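import Pool.Agent.N922.PQ.Lat

/-!
# Project PQ: diagonalisation of the ternary form over the rational numbers
-/

set_option autoImplicit false
set_option linter.all false

open Matrix Polynomial
open scoped Classical

namespace Pool.Agent.N655.PQ

open Pool.Agent.N922.PQ

/-- diagonalisation of a symmetric matrix over `ℚ` -/
theorem exists_diag (M : Matrix (Fin 3) (Fin 3) ℚ) (hM : M.IsSymm) :
    ∃ (P : Matrix (Fin 3) (Fin 3) ℚ) (A : Fin 3 → ℚ), P.det ≠ 0 ∧
      Pᵀ * M * P = Matrix.diagonal A := by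
  haveI : Invertible (2 : ℚ) := invertibleOfNonzero two_ne_zero
  have hs : LinearMap.IsSymm (Matrix.toBilin' M) := by
    constructor
    intro x y
    rw [RingHom.id_apply, Matrix.toBilin'_apply', Matrix.toBilin'_apply']
    rw [Matrix.dotProduct_mulVec, ← Matrix.mulVec_transpose, hM.eq, dotProduct_comm]
  obtain ⟨v, hv⟩ := LinearMap.BilinForm.exists_orthogonal_basis hs
  let w := v.reindex (finCongr (by simp : Module.finrank ℚ (Fin 3 → ℚ) = 3))
  have hw : ∀ j k, j ≠ k → Matrix.toBilin' M (w j) (w k) = 0 := by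
    intro j k hjk
    rw [Module.Basis.reindex_apply, Module.Basis.reindex_apply]
    apply hv
    intro h
    apply hjk
    exact (finCongr _).symm.injective h
  let P : Matrix (Fin 3) (Fin 3) ℚ := Matrix.of fun i j => w j i
  have hPv : P = (Pi.basisFun ℚ (Fin 3)).toMatrix w := by
    ext i j
    rw [Module.Basis.toMatrix_apply]
    simp [P]
  have hdet : P.det ≠ 0 := by
    rw [hPv]
    have h1 := Module.Basis.toMatrix_mul_toMatrix_flip (Pi.basisFun ℚ (Fin 3)) w
    have h2 := congrArg Matrix.det h1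
    rw [Matrix.det_mul, Matrix.det_one] at h2
    exact left_ne_zero_of_mul_eq_one h2
  refine ⟨P, fun i => Matrix.toBilin' M (w i) (w i), hdet, ?_⟩
  have key : ∀ j k, (Pᵀ * M * P) j k = Matrix.toBilin' M (w j) (w k) := by
    intro j k
    rw [Matrix.toBilin'_apply']
    simp only [Matrix.mul_apply, Fin.sum_univ_three, dotProduct, mulVec, P, Matrix.transpose_apply,
      Matrix.of_apply]
    ring
  ext j k
  rw [key]
  by_cases hjk : j = k
  · subst hjk
    rw [Matrix.diagonal_apply_eq]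
  · rw [Matrix.diagonal_apply_ne _ hjk, hw j k hjk]

section fld

variable {F : Type} [Field F] [CharZero F]

/-- the matrix over `F` -/
noncomputable def mF (F : Type) [Field F] [CharZero F] (P : Matrix (Fin 3) (Fin 3) ℚ) :
    Matrix (Fin 3) (Fin 3) F := (Rat.castHom F).mapMatrix P

theorem mF_apply (P : Matrix (Fin 3) (Fin 3) ℚ) (i j : Fin 3) : mF F P i j = (P i j : F) := rfl

theorem mF_det {P : Matrix (Fin 3) (Fin 3) ℚ} (hP : P.det ≠ 0) : (mF F P).det ≠ 0 := by
  unfold mF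
  rw [← RingHom.map_det]
  simpa using hP

theorem mF_surj {P : Matrix (Fin 3) (Fin 3) ℚ} (hP : P.det ≠ 0) (x : Fin 3 → F) :
    ∃ y, mF F P *ᵥ y = x := by
  refine ⟨(mF F P)⁻¹ *ᵥ x, ?_⟩
  rw [Matrix.mulVec_mulVec, Matrix.mul_nonsing_inv _ (IsUnit.mk0 _ (mF_det hP)), Matrix.one_mulVec]

theorem mF_ne {P : Matrix (Fin 3) (Fin 3) ℚ} (hP : P.det ≠ 0) {y : Fin 3 → F} (hy : y ≠ 0) :
    mF F P *ᵥ y ≠ 0 := by
  intro h
  apply hy
  have h1 : (mF F P)⁻¹ *ᵥ (mF F P *ᵥ y) = 0 := by rw [h, Matrix.mulVec_zero]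
  rwa [Matrix.mulVec_mulVec, Matrix.nonsing_inv_mul _ (IsUnit.mk0 _ (mF_det hP)),
    Matrix.one_mulVec] at h1

theorem form_eq {M P : Matrix (Fin 3) (Fin 3) ℚ} {A : Fin 3 → ℚ}
    (hD : Pᵀ * M * P = Matrix.diagonal A) (y : Fin 3 → F) :
    ∑ i : Fin 3, ∑ j : Fin 3, (M i j : F) * (mF F P *ᵥ y) i * (mF F P *ᵥ y) j =
      (A 0 : F) * y 0 ^ 2 + (A 1 : F) * y 1 ^ 2 + (A 2 : F) * y 2 ^ 2 := by
  have h1 : ∀ j k, ((((Pᵀ * M * P) j k : ℚ)) : F) = ((Matrix.diagonal A j k : ℚ) : F) := by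
    intro j k
    rw [hD]
  simp only [Matrix.mul_apply, Fin.sum_univ_three, Matrix.transpose_apply] at h1
  have h00 := h1 0 0
  have h01 := h1 0 1
  have h02 := h1 0 2
  have h10 := h1 1 0
  have h11 := h1 1 1
  have h12 := h1 1 2
  have h20 := h1 2 0
  have h21 := h1 2 1
  have h22 := h1 2 2
  rw [Matrix.diagonal_apply_eq] at h00 h11 h22
  rw [Matrix.diagonal_apply_ne _ (by decide), Rat.cast_zero] at h01 h02 h10 h12 h20 h21
  push_cast at h00 h01 h02 h10 h11 h12 h20 h21 h22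
  simp only [mulVec, dotProduct, Fin.sum_univ_three, mF_apply]
  linear_combination y 0 * y 0 * h00 + y 0 * y 1 * h01 + y 0 * y 2 * h02 + y 1 * y 0 * h10 +
    y 1 * y 1 * h11 + y 1 * y 2 * h12 + y 2 * y 0 * h20 + y 2 * y 1 * h21 + y 2 * y 2 * h22

theorem cast_nd (q : ℚ) : ((q.num * q.den : ℤ) : F) = (q : F) * (q.den : F) ^ 2 := by
  have h : (q.den : F) ≠ 0 := by exact_mod_cast q.den_ne_zero
  push_cast
  conv_rhs => rw [Rat.cast_def q]
  field_simp

theorem spl_iff {A : Fin 3 → ℚ} {ρ : ℚ} (hρ : ρ ≠ 0) (hA : A 0 * A 1 * A 2 = -ρ ^ 2) :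
    (∃ y : Fin 3 → F, y ≠ 0 ∧ (A 0 : F) * y 0 ^ 2 + (A 1 : F) * y 1 ^ 2 + (A 2 : F) * y 2 ^ 2 = 0) ↔
      Spl (((A 0).num * (A 0).den : ℤ) : F) (((A 1).num * (A 1).den : ℤ) : F) := by
  have hne : A 0 * A 1 * A 2 ≠ 0 := by
    rw [hA]
    exact neg_ne_zero.2 (pow_ne_zero 2 hρ)
  have h0 : (A 0 : F) ≠ 0 := by
    have : A 0 ≠ 0 := left_ne_zero_of_mul (left_ne_zero_of_mul hne)
    exact_mod_cast this
  have h1 : (A 1 : F) ≠ 0 := by
    have : A 1 ≠ 0 := right_ne_zero_of_mul (left_ne_zero_of_mul hne)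
    exact_mod_cast this
  have hρ' : (ρ : F) ≠ 0 := by exact_mod_cast hρ
  have hA' : (A 0 : F) * A 1 * A 2 = -(ρ : F) ^ 2 := by exact_mod_cast congrArg (Rat.cast : ℚ → F) hA
  have hd0 : (((A 0).den : ℕ) : F) ≠ 0 := by exact_mod_cast (A 0).den_ne_zero
  have hd1 : (((A 1).den : ℕ) : F) ≠ 0 := by exact_mod_cast (A 1).den_ne_zero
  rw [cast_nd, cast_nd]
  set a0 : F := (A 0 : F)
  set a1 : F := (A 1 : F)
  set a2 : F := (A 2 : F)
  set d0 : F := (((A 0).den : ℕ) : F)
  set d1 : F := (((A 1).den : ℕ) : F)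
  have ha2 : a2 = -(ρ : F) ^ 2 / (a0 * a1) := by
    rw [eq_div_iff (mul_ne_zero h0 h1)]
    linear_combination hA'
  constructor
  · rintro ⟨y, hy, he⟩
    refine ⟨y 1 / (a0 * d0), y 0 / (a1 * d1), ρ * y 2 / (a0 * a1), ?_, ?_⟩
    · rintro ⟨e1, e2, e3⟩
      apply hy
      rw [div_eq_zero_iff] at e1 e2 e3
      have f1 : y 1 = 0 := e1.resolve_right (mul_ne_zero h0 hd0)
      have f2 : y 0 = 0 := e2.resolve_right (mul_ne_zero h1 hd1)
      have f3 : y 2 = 0 := (mul_eq_zero.1 (e3.resolve_right (mul_ne_zero h0 h1))).resolve_left hρ'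
      funext i
      fin_cases i
      · exact f2
      · exact f1
      · exact f3
    · rw [ha2] at he
      field_simp at he ⊢
      linear_combination he
  · rintro ⟨x, y, z, hne', he⟩
    refine ⟨![a1 * d1 * y, a0 * d0 * x, a0 * a1 * z / ρ], ?_, ?_⟩
    · intro h
      apply hne'
      have e0 := congrFun h 0
      have e1 := congrFun h 1
      have e2 := congrFun h 2
      simp only [Matrix.cons_val_zero, Matrix.cons_val_one, Matrix.cons_val,
        Pi.zero_apply] at e0 e1 e2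
      refine ⟨?_, ?_, ?_⟩
      · exact (mul_eq_zero.1 e1).resolve_left (mul_ne_zero h0 hd0)
      · exact (mul_eq_zero.1 e0).resolve_left (mul_ne_zero h1 hd1)
      · rw [div_eq_zero_iff] at e2
        exact (mul_eq_zero.1 (e2.resolve_right hρ')).resolve_left (mul_ne_zero h0 h1)
    · simp only [Matrix.cons_val_zero, Matrix.cons_val_one, Matrix.cons_val]
      rw [ha2]
      field_simp
      linear_combination a0 * a1 * he

end fld

section cub

variable {L : Type} [Field L] [NumberField L] {a b : ℤ} {θ : L}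

theorem basis_pow (h : IsCub a b θ) (i : Fin 3) : h.basis i = θ ^ (i : ℕ) := by
  rw [h.basis_apply]
  fin_cases i <;> simp [Pool.Agent.N922.PQ.vec]

theorem co_pow (h : IsCub a b θ) (i j : Fin 3) : h.co j (θ ^ (i : ℕ)) = if i = j then 1 else 0 := by
  rw [← basis_pow h]
  unfold IsCub.co
  rw [Module.Basis.coord_apply, Module.Basis.repr_self, Finsupp.single_apply]

theorem co3 (h : IsCub a b θ) (β : L) :
    h.co 2 (θ ^ 3 * β) = -(a : ℚ) * h.co 2 (θ * β) - (b : ℚ) * h.co 2 β := by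
  have e : θ ^ 3 * β = (-(a : ℚ)) • (θ * β) - (b : ℚ) • β := by
    rw [Rat.smul_def, Rat.smul_def]
    push_cast
    linear_combination β * h.root
  rw [e, map_sub, map_smul, map_smul, smul_eq_mul, smul_eq_mul]

theorem det_eq (h : IsCub a b θ) (β : L) :
    (Matrix.of fun i j : Fin 3 => h.co 2 (θ ^ (i : ℕ) * θ ^ (j : ℕ) * β)).det =
      -Algebra.norm ℚ β := by
  have h1 : (Matrix.of fun i j : Fin 3 => h.co 2 (θ ^ (i : ℕ) * θ ^ (j : ℕ) * β)) =
      (Matrix.of fun i j : Fin 3 => h.co 2 (θ ^ (i : ℕ) * θ ^ (j : ℕ))) *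
        Algebra.leftMulMatrix h.basis β := by
    ext i j
    rw [Matrix.mul_apply]
    simp only [Matrix.of_apply]
    have e1 : θ ^ (i : ℕ) * θ ^ (j : ℕ) * β = ∑ k : Fin 3,
        (Algebra.leftMulMatrix h.basis β k j) • (θ ^ (i : ℕ) * θ ^ (k : ℕ)) := by
      have e2 := h.basis.sum_repr (β * h.basis j)
      have e3 : ∀ k, h.basis.repr (β * h.basis j) k = Algebra.leftMulMatrix h.basis β k j :=
        fun k => (Algebra.leftMulMatrix_eq_repr_mul h.basis β k j).symm
      simp only [e3] at e2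
      rw [basis_pow h j] at e2
      calc θ ^ (i : ℕ) * θ ^ (j : ℕ) * β = θ ^ (i : ℕ) * (β * θ ^ (j : ℕ)) := by ring
        _ = θ ^ (i : ℕ) * ∑ k, (Algebra.leftMulMatrix h.basis β k j) • h.basis k := by rw [e2]
        _ = _ := by
          rw [Finset.mul_sum]
          refine Finset.sum_congr rfl fun k _ => ?_
          rw [basis_pow h k, mul_smul_comm]
    rw [e1, map_sum]
    refine Finset.sum_congr rfl fun k _ => ?_
    rw [map_smul, smul_eq_mul, mul_comm]
  have h0 : h.co 2 1 = 0 := by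
    have := co_pow h 0 2
    simpa using this
  have h1' : h.co 2 θ = 0 := by
    have := co_pow h 1 2
    simpa using this
  have h2 : h.co 2 (θ ^ 2) = 1 := by
    have := co_pow h 2 2
    simpa using this
  have h3 : h.co 2 (θ ^ 3) = 0 := by
    have := co3 h 1
    rw [mul_one, mul_one, h0, h1'] at this
    rw [this]
    ring
  have h4 : h.co 2 (θ ^ 4) = -(a : ℚ) := by
    have := co3 h θ
    have e : θ ^ 3 * θ = θ ^ 4 := by ring
    have e' : θ * θ = θ ^ 2 := by ring
    rw [e, e', h1', h2] at this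
    rw [this]
    ring
  rw [h1, Matrix.det_mul, ← Algebra.norm_eq_matrix_det]
  have h5 : (Matrix.of fun i j : Fin 3 => h.co 2 (θ ^ (i : ℕ) * θ ^ (j : ℕ))).det = -1 := by
    rw [Matrix.det_fin_three]
    simp only [Matrix.of_apply, ← pow_add]
    norm_num [h0, h1', h2, h3, h4]
  rw [h5]
  ring

theorem exists_root {a b : ℤ} (ha : 0 < a) : ∃ t : ℝ, t ^ 3 + (a : ℝ) * t + (b : ℝ) = 0 := by
  have ha' : (0 : ℝ) < a := by exact_mod_cast ha
  set N : ℝ := |(b : ℝ)| + 1 with hN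
  have hN1 : 1 ≤ N := by
    rw [hN]
    have := abs_nonneg (b : ℝ)
    linarith
  have hb1 : (b : ℝ) < N := by
    rw [hN]
    have := le_abs_self (b : ℝ)
    linarith
  have hb2 : -(b : ℝ) < N := by
    rw [hN]
    have := neg_abs_le (b : ℝ)
    linarith
  have hN3 : N ≤ N ^ 3 := by
    nlinarith [mul_nonneg (by linarith : (0 : ℝ) ≤ N) (by nlinarith : (0 : ℝ) ≤ N ^ 2 - 1)]
  have hcont : ContinuousOn (fun t : ℝ => t ^ 3 + (a : ℝ) * t + (b : ℝ)) (Set.Icc (-N) N) := by
    fun_prop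
  have h := intermediate_value_Icc (by linarith : -N ≤ N) hcont
  have h0 : (0 : ℝ) ∈ Set.Icc ((-N) ^ 3 + (a : ℝ) * (-N) + (b : ℝ)) (N ^ 3 + (a : ℝ) * N + (b : ℝ)) := by
    constructor
    · have : 0 ≤ (a : ℝ) * N := by positivity
      have e : (-N) ^ 3 = -N ^ 3 := by ring
      rw [e]
      linarith
    · have : 0 ≤ (a : ℝ) * N := by positivity
      linarith
  obtain ⟨t, _, ht⟩ := h h0
  exact ⟨t, ht⟩

end cub

theorem diag : S_DIAG := by
  intro L _ _ a b θ h ha α hα hsq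
  set M : Matrix (Fin 3) (Fin 3) ℚ :=
    Matrix.of fun i j => h.co 2 (θ ^ (i : ℕ) * θ ^ (j : ℕ) / α) with hMdef
  have hMs : M.IsSymm := by
    ext i j
    rw [hMdef, Matrix.transpose_apply, Matrix.of_apply, Matrix.of_apply, mul_comm (θ ^ (j : ℕ))]
  obtain ⟨P, A, hP, hD⟩ := exists_diag M hMs
  obtain ⟨n, hn⟩ := hsq
  have hn0 : n ≠ 0 := by
    rintro rfl
    rw [mul_zero, Algebra.norm_eq_zero_iff] at hn
    exact hα hn
  have hdet : M.det = -(n⁻¹) ^ 2 := by
    have h1 := det_eq h α⁻¹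
    have h2 : (Matrix.of fun i j : Fin 3 => h.co 2 (θ ^ (i : ℕ) * θ ^ (j : ℕ) * α⁻¹)) = M := by
      ext i j
      rw [hMdef, Matrix.of_apply, Matrix.of_apply, div_eq_mul_inv]
    have h3 : Algebra.norm ℚ α⁻¹ = (n * n)⁻¹ := by
      rw [← hn]
      apply eq_inv_of_mul_eq_one_left
      rw [← map_mul, inv_mul_cancel₀ hα, map_one]
    rw [h2, h3] at h1
    rw [h1, mul_inv]
    ring
  set ρ : ℚ := P.det * n⁻¹ with hρdef
  have hρ : ρ ≠ 0 := mul_ne_zero hP (inv_ne_zero hn0)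
  have hA : A 0 * A 1 * A 2 = -ρ ^ 2 := by
    have h1 := congrArg Matrix.det hD
    rw [Matrix.det_mul, Matrix.det_mul, Matrix.det_transpose, Matrix.det_diagonal,
      Fin.prod_univ_three, hdet] at h1
    rw [← h1, hρdef]
    ring
  have hne : A 0 * A 1 * A 2 ≠ 0 := by
    rw [hA]
    exact neg_ne_zero.2 (pow_ne_zero 2 hρ)
  have h0 : A 0 ≠ 0 := left_ne_zero_of_mul (left_ne_zero_of_mul hne)
  have h1 : A 1 ≠ 0 := right_ne_zero_of_mul (left_ne_zero_of_mul hne)
  refine ⟨(A 0).num * (A 0).den, (A 1).num * (A 1).den, ?_, ?_, ?_, ?_⟩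
  · exact mul_ne_zero (Rat.num_ne_zero.2 h0) (by exact_mod_cast (A 0).den_ne_zero)
  · exact mul_ne_zero (Rat.num_ne_zero.2 h1) (by exact_mod_cast (A 1).den_ne_zero)
  · -- the real place
    have hpos : 0 < A 0 ∨ 0 < A 1 := by
      by_contra hcon
      push Not at hcon
      have g0 : A 0 < 0 := lt_of_le_of_ne hcon.1 h0
      have g1 : A 1 < 0 := lt_of_le_of_ne hcon.2 h1
      have g2 : A 2 < 0 := by
        by_contra h2
        push Not at h2
        have h3 : 0 ≤ A 0 * A 1 * A 2 := mul_nonneg (mul_pos_of_neg_of_neg g0 g1).le h2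
        rw [hA] at h3
        have : 0 < ρ ^ 2 := by positivity
        linarith
      have g0' : (A 0 : ℝ) < 0 := by exact_mod_cast g0
      have g1' : (A 1 : ℝ) < 0 := by exact_mod_cast g1
      have g2' : (A 2 : ℝ) < 0 := by exact_mod_cast g2
      have hneg : ∀ x : Fin 3 → ℝ, x ≠ 0 →
          ∑ i : Fin 3, ∑ j : Fin 3, (M i j : ℝ) * x i * x j < 0 := by
        intro x hx
        obtain ⟨y, rfl⟩ := mF_surj hP x
        have hy : y ≠ 0 := by
          rintro rfl
          exact hx (Matrix.mulVec_zero _)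
        rw [form_eq hD]
        obtain ⟨i, hi⟩ := Function.ne_iff.1 hy
        have hi' : 0 < y i ^ 2 := by
          have : y i ≠ 0 := hi
          positivity
        have s0 : (A 0 : ℝ) * y 0 ^ 2 ≤ 0 := mul_nonpos_of_nonpos_of_nonneg g0'.le (sq_nonneg _)
        have s1 : (A 1 : ℝ) * y 1 ^ 2 ≤ 0 := mul_nonpos_of_nonpos_of_nonneg g1'.le (sq_nonneg _)
        have s2 : (A 2 : ℝ) * y 2 ^ 2 ≤ 0 := mul_nonpos_of_nonpos_of_nonneg g2'.le (sq_nonneg _)
        fin_cases i
        · have := mul_neg_of_neg_of_pos g0' hi'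
          simp only [Fin.zero_eta] at this
          linarith
        · have := mul_neg_of_neg_of_pos g1' hi'
          simp only [Fin.mk_one] at this
          linarith
        · have := mul_neg_of_neg_of_pos g2' hi'
          simp only [Fin.reduceFinMk] at this
          linarith
      obtain ⟨t, ht⟩ := exists_root (b := b) ha
      have ha' : (0 : ℝ) < a := by exact_mod_cast ha
      have e1 := hneg ![-t, 1, 0] (by
        intro h
        have := congrFun h 1
        simp at this)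
      have e2 := hneg ![-t ^ 2, -t, 2] (by
        intro h
        have := congrFun h 2
        simp at this)
      have m3 := congrArg (Rat.cast : ℚ → ℝ) (co3 h α⁻¹)
      have m4 := congrArg (Rat.cast : ℚ → ℝ) (co3 h (θ * α⁻¹))
      push_cast at m3 m4
      set m : ℕ → ℝ := fun k => ((h.co 2 (θ ^ k * α⁻¹) : ℚ) : ℝ) with hm
      have hMm : ∀ i j : Fin 3, (M i j : ℝ) = m ((i : ℕ) + j) := by
        intro i j
        simp only [hm]
        rw [hMdef, Matrix.of_apply, pow_add, div_eq_mul_inv]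
      have r3 : m 3 = -(a : ℝ) * m 1 - (b : ℝ) * m 0 := by
        simp only [hm, pow_one, pow_zero, one_mul]
        exact m3
      have r4 : m 4 = -(a : ℝ) * m 2 - (b : ℝ) * m 1 := by
        simp only [hm, pow_one]
        have u1 : θ ^ 4 * α⁻¹ = θ ^ 3 * (θ * α⁻¹) := by ring
        have u2 : θ ^ 2 * α⁻¹ = θ * (θ * α⁻¹) := by ring
        rw [u1, u2]
        exact m4
      simp only [Fin.sum_univ_three, hMm] at e1 e2
      simp only [Matrix.cons_val_zero, Matrix.cons_val_one, Matrix.cons_val,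
        Fin.val_zero, Fin.val_one, Fin.val_two, add_zero, zero_add] at e1 e2
      norm_num at e1 e2
      rw [r3, r4] at e2
      have e3 : (3 * t ^ 2 + 4 * (a : ℝ)) * (t ^ 2 * m 0 - 2 * t * m 1 + m 2) < 0 := by
        apply mul_neg_of_pos_of_neg
        · positivity
        · linarith
      have e4 : -((3 * t ^ 2 + 4 * (a : ℝ)) * (t ^ 2 * m 0 - 2 * t * m 1 + m 2)) < 0 := by
        have e5 : -((3 * t ^ 2 + 4 * (a : ℝ)) * (t ^ 2 * m 0 - 2 * t * m 1 + m 2)) =
          t ^ 4 * m 0 + 2 * t ^ 3 * m 1 - 3 * t ^ 2 * m 2 - 4 * t * (-(a : ℝ) * m 1 - (b : ℝ) * m 0) +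
          4 * (-(a : ℝ) * m 2 - (b : ℝ) * m 1) := by
          linear_combination (-4 * t * m 0 + 4 * m 1) * ht
        rw [e5]
        linarith
      linarith
    have key : ∀ q : ℚ, 0 < q → (0 : ℝ) < ((q.num * q.den : ℤ) : ℝ) := by
      intro q hq
      have h3 : 0 < q.num := Rat.num_pos.2 hq
      have h4 : (0 : ℤ) < q.den := by exact_mod_cast q.den_pos
      exact_mod_cast mul_pos h3 h4
    rcases hpos with h3 | h3
    · refine ⟨1, 0, √(((A 0).num * (A 0).den : ℤ) : ℝ), fun h4 => one_ne_zero h4.1, ?_⟩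
      rw [Real.sq_sqrt (key _ h3).le]
      ring
    · refine ⟨0, 1, √(((A 1).num * (A 1).den : ℤ) : ℝ), fun h4 => one_ne_zero h4.2.1, ?_⟩
      rw [Real.sq_sqrt (key _ h3).le]
      ring
  · intro p hp
    rw [← spl_iff hρ hA]
    unfold IsoAt
    constructor
    · rintro ⟨x, hx, he⟩
      obtain ⟨y, rfl⟩ := mF_surj hP x
      refine ⟨y, ?_, ?_⟩
      · rintro rfl
        exact hx (Matrix.mulVec_zero _)
      · rw [← form_eq hD]
        exact he
    · rintro ⟨y, hy, he⟩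
      refine ⟨mF ℚ_[p] P *ᵥ y, mF_ne hP hy, ?_⟩
      rw [← form_eq hD] at he
      exact he

end Pool.Agent.N655.PQ
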