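import Pool.Agent.N922.PQ.Lat
import Pool.Agent.W351.HB.PF
import Pool.Agent.W215.HB.Bilo
import Pool.Agent.W864.HB.Bilt

/-!
# Project PQ: the product formula for the Hilbert symbol over the rational numbers
-/

set_option autoImplicit false
set_option linter.all false

namespace Pool.Agent.N655.PQ

open Pool.Agent.N922.PQ
open Pool.Agent.W313.BMX (Splits ram diag)

theorem spl_splits {F : Type} [Field F] (d e : F) : Spl d e ↔ Splits d e := by
  constructor
  · rintro ⟨x, y, z, h, he⟩
    refine ⟨x, y, z, ?_, he.symm⟩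
    by_contra hcon
    push Not at hcon
    exact h hcon
  · rintro ⟨x, y, z, h, he⟩
    refine ⟨x, y, z, ?_, he.symm⟩
    rintro ⟨h1, h2, h3⟩
    rcases h with h | h | h
    · exact h h1
    · exact h h2
    · exact h h3

theorem hp : S_HP := by
  intro d e hd he hre
  have hev : Pool.Agent.W351.HB.PF.Ev d e := Pool.Agent.W351.HB.PF.ev_all
    Pool.Agent.W215.HB.bilo_ Pool.Agent.W864.HBm.bilt_ d e hd he
  let f : Option Nat.Primes → ℕ := fun v => v.elim 0 fun p => (p : ℕ)
  have himg : {p : ℕ | ∃ _ : Fact p.Prime, ¬ Spl (d : ℚ_[p]) (e : ℚ_[p])} = f '' ram (diag d) e := by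
    ext p
    rw [Set.mem_setOf_eq, Set.mem_image]
    constructor
    · rintro ⟨hp, h⟩
      rw [spl_splits] at h
      let q : Nat.Primes := ⟨p, hp.out⟩
      exact ⟨some q, (Pool.Agent.W351.HB.PF.mem_some d e q).2 h, rfl⟩
    · rintro ⟨v, hv, rfl⟩
      cases v with
      | none =>
        rw [Pool.Agent.W351.HB.PF.mem_none, ← spl_splits] at hv
        exact absurd hre hv
      | some q =>
        refine ⟨⟨q.2⟩, ?_⟩
        rw [Pool.Agent.W351.HB.PF.mem_some] at hv
        rw [spl_splits]
        exact hv
  have hinj : Set.InjOn f (ram (diag d) e) := by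
    intro v _ w _ h
    cases v with
    | none =>
      cases w with
      | none => rfl
      | some q =>
        have h1 : 0 = (q : ℕ) := h
        exact absurd h1.symm q.2.ne_zero
    | some p =>
      cases w with
      | none =>
        have h1 : (p : ℕ) = 0 := h
        exact absurd h1 p.2.ne_zero
      | some q =>
        have h1 : (p : ℕ) = (q : ℕ) := h
        rw [Subtype.ext h1]
  rw [himg]
  exact ⟨hev.1.image f, by rw [Set.ncard_image_of_injOn hinj]; exact hev.2⟩

end Pool.Agent.N655.PQ
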